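import Mathlib

set_option autoImplicit false
set_option linter.unusedSectionVars false

/-!
# Translation-commuting operators that are all regular, on a space with non-regular operators

`G` is the direct sum of countably many copies of `ℤ/2` and `E` is a weighted `ℓ¹`-sum of the
spaces `ℓ²` of the dyadic shells of `G`.
-/

namespace Pool.Agent.Results.MP_3f33d0_an.InvariantRegular

open Finset Filter Topology
open scoped ENNReal

/-! ### Definitions (for a discrete group, written additively) -/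

section Defs

variable {G E : Type*} [AddGroup G] [NormedAddCommGroup E] [NormedSpace ℂ E]

/-- A Banach function space on the discrete group `G`: a complete normed space `E`, identified by
`ι` with a space of functions on `G`, such that `|g| ≤ |f|`, `f ∈ E` imply `g ∈ E`, `‖g‖ ≤ ‖f‖`. -/
structure IsBFS (ι : E →ₗ[ℂ] (G → ℂ)) : Prop where
  complete : CompleteSpace E
  inj : Function.Injective ι
  solid : ∀ (f : E) (g : G → ℂ), (∀ s, ‖g s‖ ≤ ‖ι f s‖) → ∃ g' : E, ι g' = g ∧ ‖g'‖ ≤ ‖f‖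

/-- invariance under right and left translations -/
def Invariant (ι : E →ₗ[ℂ] (G → ℂ)) : Prop :=
  ∀ (t : G) (f : E), (∃ g : E, ι g = fun s => ι f (s + t)) ∧ ∃ g : E, ι g = fun s => ι f (-t + s)

/-- a nonnegative element -/
def IsNonneg (ι : E →ₗ[ℂ] (G → ℂ)) (f : E) : Prop := ∀ s, 0 ≤ (ι f s).re ∧ (ι f s).im = 0

/-- a positive operator -/
def PositiveOp (ι : E →ₗ[ℂ] (G → ℂ)) (A : E →ₗ[ℂ] E) : Prop := ∀ f, IsNonneg ι f → IsNonneg ι (A f)

/-- a regular operator: a linear combination of positive operators -/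
def RegularOp (ι : E →ₗ[ℂ] (G → ℂ)) (T : E →ₗ[ℂ] E) : Prop :=
  ∃ (n : ℕ) (c : Fin n → ℂ) (A : Fin n → (E →ₗ[ℂ] E)), (∀ i, PositiveOp ι (A i)) ∧
    T = ∑ i, c i • A i

/-- `T` commutes with all right translations -/
def CommutesRight (ι : E →ₗ[ℂ] (G → ℂ)) (T : E →ₗ[ℂ] E) : Prop :=
  ∀ (t : G) (f g : E), (ι g = fun s => ι f (s + t)) → ι (T g) = fun s => ι (T f) (s + t)

variable (G) in
/-- amenability of a discrete group (Følner's condition) -/
def Amenable : Prop :=
  ∀ (K : Set G) (ε : ℝ), K.Finite → 0 < ε → ∃ F : Set G, F.Finite ∧ F.Nonempty ∧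
    ∀ t ∈ K, (((symmDiff ((fun s => t + s) '' F) F).ncard : ℕ) : ℝ) ≤ ε * F.ncard

end Defs

/-! ### The group -/

section Group

/-- the direct sum of countably many copies of `ℤ/2` -/
abbrev Gr := ℕ →₀ ZMod 2

/-- the level of an element -/
def m (s : Gr) : ℕ := s.support.sup (fun i => i + 1)

theorem m_le_iff (s : Gr) (k : ℕ) : m s ≤ k ↔ ∀ i, k ≤ i → s i = 0 := by
  unfold m
  rw [Finset.sup_le_iff]
  constructor
  · intro h i hi
    by_contra hne
    have := h i (Finsupp.mem_support_iff.mpr hne)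
    omega
  · intro h i hi
    by_contra hlt
    exact (Finsupp.mem_support_iff.mp hi) (h i (by omega))

theorem m_add (s t : Gr) : m (s + t) ≤ max (m s) (m t) := by
  rw [m_le_iff]
  intro i hi
  rw [Finsupp.add_apply, (m_le_iff s _).mp le_rfl i (le_trans (le_max_left _ _) hi),
    (m_le_iff t _).mp le_rfl i (le_trans (le_max_right _ _) hi), add_zero]

theorem m_neg (s : Gr) : m (-s) = m s := by
  unfold m
  rw [Finsupp.support_neg]

theorem m_sub (s t : Gr) : m (s - t) ≤ max (m s) (m t) := by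
  rw [sub_eq_add_neg, ← m_neg t]
  exact m_add s (-t)

theorem m_sub_of_ne (s t : Gr) (h : m s ≠ m t) : m (s - t) = max (m s) (m t) := by
  apply le_antisymm (m_sub s t)
  rcases lt_or_gt_of_ne h with h | h
  · rw [max_eq_right h.le]
    by_contra hcon
    rw [not_le] at hcon
    have h1 : m t ≤ max (m s) (m (s - t)) := by
      have := m_sub s (s - t)
      rwa [sub_sub_cancel] at this
    rcases le_max_iff.mp h1 with h2 | h2 <;> omega
  · rw [max_eq_left h.le]
    by_contra hcon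
    rw [not_le] at hcon
    have h1 : m s ≤ max (m (s - t)) (m t) := by
      have := m_add (s - t) t
      rwa [sub_add_cancel] at this
    rcases le_max_iff.mp h1 with h2 | h2 <;> omega

theorem finite_le (k : ℕ) : {s : Gr | m s ≤ k}.Finite := by
  have : Finite {s : Gr // m s ≤ k} := by
    apply Finite.of_injective (fun (s : {s : Gr // m s ≤ k}) (i : Fin k) => s.1 i)
    intro s t h
    apply Subtype.ext
    ext i
    by_cases hi : i < k
    · exact congrFun h ⟨i, hi⟩
    · rw [(m_le_iff s.1 k).mp s.2 i (by omega), (m_le_iff t.1 k).mp t.2 i (by omega)]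
  exact Set.finite_coe_iff.mp this

/-- the subgroup of elements of level at most `k` -/
noncomputable def Hk (k : ℕ) : Finset Gr := (finite_le k).toFinset

theorem mem_Hk (k : ℕ) (s : Gr) : s ∈ Hk k ↔ m s ≤ k := by
  unfold Hk
  rw [Set.Finite.mem_toFinset]
  rfl

/-- the shell of elements of level `k` -/
noncomputable def Sf (k : ℕ) : Finset Gr := (Hk k).filter (fun s => m s = k)

theorem mem_Sf (k : ℕ) (s : Gr) : s ∈ Sf k ↔ m s = k := by
  unfold Sf
  rw [mem_filter, mem_Hk]
  constructor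
  · exact fun h => h.2
  · exact fun h => ⟨h.le, h⟩

theorem mem_Sf_self (s : Gr) : s ∈ Sf (m s) := (mem_Sf _ _).mpr rfl

theorem m_single (i : ℕ) : m (Finsupp.single i 1) = i + 1 := by
  unfold m
  rw [Finsupp.support_single _ (by decide)]
  simp

theorem Sf_nonempty (k : ℕ) : (Sf k).Nonempty := by
  rcases k with _ | k
  · refine ⟨0, ?_⟩
    rw [mem_Sf]
    unfold m
    simp
  · refine ⟨Finsupp.single k 1, ?_⟩
    rw [mem_Sf, m_single]

theorem Hk_mono {i k : ℕ} (h : i ≤ k) : Hk i ⊆ Hk k := by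
  intro s hs
  rw [mem_Hk] at hs ⊢
  omega

/-- the weights -/
noncomputable def w (k : ℕ) : ℝ := 2 ^ k * (Hk k).card

theorem card_Hk_pos (k : ℕ) : 1 ≤ (Hk k).card := by
  rw [Nat.one_le_iff_ne_zero, ← Nat.pos_iff_ne_zero, card_pos]
  obtain ⟨s, hs⟩ := Sf_nonempty k
  exact ⟨s, (mem_Hk k s).mpr ((mem_Sf k s).mp hs).le⟩

theorem card_Sf_succ (k : ℕ) : (Hk k).card ≤ (Sf (k + 1)).card := by
  apply card_le_card_of_injOn (fun s => s - Finsupp.single k 1)
  · intro s hs
    have h1 : m s ≤ k := (mem_Hk k s).mp hs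
    show _ ∈ Sf (k + 1)
    rw [mem_Sf, m_sub_of_ne _ _ (by rw [m_single]; omega), m_single]
    omega
  · intro s _ t _ h
    exact sub_left_injective h

theorem card_Hk_ge (k : ℕ) : 2 ^ k ≤ (Hk k).card := by
  induction k with
  | zero => simpa using card_Hk_pos 0
  | succ k ih =>
    have h1 : Disjoint (Hk k) (Sf (k + 1)) := by
      rw [Finset.disjoint_left]
      intro s hs hs'
      rw [mem_Hk] at hs
      rw [mem_Sf] at hs'
      omega
    have h2 : Hk k ∪ Sf (k + 1) ⊆ Hk (k + 1) :=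
      union_subset (Hk_mono (Nat.le_succ k)) (filter_subset _ _)
    have h3 := card_le_card h2
    rw [card_union_of_disjoint h1] at h3
    have h4 := card_Sf_succ k
    rw [pow_succ]
    omega

theorem card_Sf_ge (k : ℕ) : 2 ^ k ≤ (Sf (k + 1)).card := (card_Hk_ge k).trans (card_Sf_succ k)

theorem card_Hk_real (k : ℕ) : (1 : ℝ) ≤ (Hk k).card := by exact_mod_cast card_Hk_pos k

theorem w_ge_card (k : ℕ) : ((Hk k).card : ℝ) ≤ w k := by
  unfold w
  have h1 : (1 : ℝ) ≤ 2 ^ k := one_le_pow₀ (by norm_num)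
  have h2 := card_Hk_real k
  nlinarith

theorem w_ge_one (k : ℕ) : 1 ≤ w k := (card_Hk_real k).trans (w_ge_card k)

theorem w_pos (k : ℕ) : 0 < w k := lt_of_lt_of_le one_pos (w_ge_one k)

theorem sum_w (k : ℕ) : ∑ i ∈ range k, w i ≤ w k := by
  calc ∑ i ∈ range k, w i ≤ ∑ i ∈ range k, (2 : ℝ) ^ i * (Hk k).card := by
        apply sum_le_sum
        intro i hi
        unfold w
        apply mul_le_mul_of_nonneg_left _ (by positivity)
        exact_mod_cast card_le_card (Hk_mono (mem_range.mp hi).le)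
    _ = (∑ i ∈ range k, (2 : ℝ) ^ i) * (Hk k).card := by rw [sum_mul]
    _ ≤ 2 ^ k * (Hk k).card := by
        apply mul_le_mul_of_nonneg_right _ (by positivity)
        rw [geom_sum_eq (by norm_num)]
        norm_num

theorem card_Sf_le (k : ℕ) : ((Sf k).card : ℝ) ≤ w k := by
  refine le_trans ?_ (w_ge_card k)
  exact_mod_cast card_le_card (filter_subset _ _)

theorem amenable : Amenable Gr := by
  intro K ε hK hε
  obtain ⟨k, hk⟩ : ∃ k, ∀ t ∈ K, m t ≤ k := by
    refine ⟨hK.toFinset.sup m, fun t ht => ?_⟩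
    exact Finset.le_sup (f := m) (hK.mem_toFinset.mpr ht)
  refine ⟨{s | m s ≤ k}, finite_le k, ⟨0, ?_⟩, fun t ht => ?_⟩
  · show m 0 ≤ k
    unfold m
    simp
  · have h1 : (fun s => t + s) '' {s | m s ≤ k} = {s | m s ≤ k} := by
      ext s
      constructor
      · rintro ⟨r, hr, rfl⟩
        exact (m_add t r).trans (max_le (hk t ht) hr)
      · intro hs
        refine ⟨s - t, (m_sub s t).trans (max_le hs (hk t ht)), ?_⟩
        simp
    rw [h1, symmDiff_self]
    have h2 : (⊥ : Set Gr).ncard = 0 := Set.ncard_empty _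
    rw [h2]
    push_cast
    positivity

end Group

/-! ### The space -/

section Space

/-- shells as types -/
abbrev Sh (k : ℕ) := {s // s ∈ Sf k}

/-- the `ℓ¹`-sum of the spaces `ℓ²` of the shells -/
noncomputable abbrev E := lp (fun k : ℕ => EuclideanSpace ℂ (Sh k)) 1

theorem summable_norm (f : E) : Summable fun k => ‖f k‖ := by
  have := (lp.memℓp f).summable (by simp)
  simpa using this

theorem norm_eq (f : E) : ‖f‖ = ∑' k, ‖f k‖ := by
  have := lp.norm_eq_tsum_rpow (p := 1) (by simp) f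
  simpa using this

/-- the function attached to an element of `E` -/
noncomputable def ι : E →ₗ[ℂ] (Gr → ℂ) where
  toFun f s := ((w (m s) : ℝ) : ℂ)⁻¹ * f (m s) ⟨s, mem_Sf_self s⟩
  map_add' f g := by
    funext s
    simp only [lp.coeFn_add, Pi.add_apply, PiLp.add_apply]
    ring
  map_smul' c f := by
    funext s
    simp only [lp.coeFn_smul, Pi.smul_apply, PiLp.smul_apply, smul_eq_mul, RingHom.id_apply]
    ring

theorem ι_apply (f : E) (s : Gr) : ι f s = ((w (m s) : ℝ) : ℂ)⁻¹ * f (m s) ⟨s, mem_Sf_self s⟩ := rfl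

theorem w_ne (k : ℕ) : ((w k : ℝ) : ℂ) ≠ 0 := by exact_mod_cast (w_pos k).ne'

/-- restriction to a shell -/
noncomputable def v1 (g : Gr → ℂ) (k : ℕ) : EuclideanSpace ℂ (Sh k) := WithLp.toLp 2 (fun s => g s.1)

theorem v1_apply (g : Gr → ℂ) (k : ℕ) (s : Sh k) : v1 g k s = g s.1 := rfl

theorem norm_v1_sq (g : Gr → ℂ) (k : ℕ) : ‖v1 g k‖ ^ 2 = ∑ s ∈ Sf k, ‖g s‖ ^ 2 := by
  rw [EuclideanSpace.norm_sq_eq, ← sum_coe_sort (Sf k)]
  rfl

theorem coord_eq (f : E) (k : ℕ) : f k = ((w k : ℝ) : ℂ) • v1 (ι f) k := by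
  ext s
  rw [PiLp.smul_apply, v1_apply, ι_apply, smul_eq_mul]
  obtain ⟨s, hs⟩ := s
  have h := (mem_Sf k s).mp hs
  subst h
  rw [mul_inv_cancel_left₀ (w_ne _)]

theorem norm_coord (f : E) (k : ℕ) : ‖f k‖ = w k * ‖v1 (ι f) k‖ := by
  rw [coord_eq f k, norm_smul, Complex.norm_real, Real.norm_of_nonneg (w_pos k).le]

theorem ι_injective : Function.Injective ι := by
  intro f g h
  apply lp.ext
  funext k
  rw [coord_eq f k, coord_eq g k, h]

/-- the element of `E` with a given function -/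
theorem exists_elt (g : Gr → ℂ) (h : Summable fun k => w k * ‖v1 g k‖) : ∃ f : E, ι f = g := by
  have hmem : Memℓp (fun k => ((w k : ℝ) : ℂ) • v1 g k) 1 := by
    apply memℓp_gen
    refine h.congr (fun k => ?_)
    rw [norm_smul, Complex.norm_real, Real.norm_of_nonneg (w_pos k).le]
    simp
  refine ⟨⟨_, hmem⟩, ?_⟩
  funext s
  show ((w (m s) : ℝ) : ℂ)⁻¹ * (((w (m s) : ℝ) : ℂ) • v1 g (m s)) ⟨s, mem_Sf_self s⟩ = g s
  rw [PiLp.smul_apply, v1_apply, smul_eq_mul, inv_mul_cancel_left₀ (w_ne _)]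

theorem v1_le (g g' : Gr → ℂ) (i j : ℕ) (φ : Gr → Gr) (hφ : Function.Injective φ)
    (h : ∀ s ∈ Sf i, g s = 0 ∨ (φ s ∈ Sf j ∧ ‖g s‖ ≤ ‖g' (φ s)‖)) : ‖v1 g i‖ ≤ ‖v1 g' j‖ := by
  apply le_of_sq_le_sq _ (norm_nonneg _)
  rw [norm_v1_sq, norm_v1_sq]
  calc ∑ s ∈ Sf i, ‖g s‖ ^ 2 ≤ ∑ s ∈ (Sf i).filter (fun s => φ s ∈ Sf j), ‖g' (φ s)‖ ^ 2 := by
        rw [sum_filter]
        apply sum_le_sum
        intro s hs
        rcases h s hs with h1 | ⟨h1, h2⟩
        · rw [h1, norm_zero]
          split_ifs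
          · rw [zero_pow two_ne_zero]
            positivity
          · rw [zero_pow two_ne_zero]
        · rw [if_pos h1]
          exact pow_le_pow_left₀ (norm_nonneg _) h2 2
    _ = ∑ t ∈ ((Sf i).filter (fun s => φ s ∈ Sf j)).image φ, ‖g' t‖ ^ 2 := by
        rw [sum_image (fun a _ b _ hab => hφ hab)]
    _ ≤ ∑ t ∈ Sf j, ‖g' t‖ ^ 2 := by
        apply sum_le_sum_of_subset_of_nonneg
        · intro t ht
          obtain ⟨s, hs, rfl⟩ := mem_image.mp ht
          exact (mem_filter.mp hs).2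
        · intro t _ _
          positivity

theorem bfs : IsBFS (G := Gr) ι := by
  refine ⟨inferInstance, ι_injective, ?_⟩
  intro f g hg
  have h1 : ∀ k, w k * ‖v1 g k‖ ≤ ‖f k‖ := by
    intro k
    rw [norm_coord]
    apply mul_le_mul_of_nonneg_left _ (w_pos k).le
    exact v1_le g (ι f) k k id Function.injective_id (fun s hs => Or.inr ⟨hs, hg s⟩)
  have hs : Summable fun k => w k * ‖v1 g k‖ :=
    Summable.of_nonneg_of_le (fun k => mul_nonneg (w_pos k).le (norm_nonneg _)) h1 (summable_norm f)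
  obtain ⟨g', hg'⟩ := exists_elt g hs
  refine ⟨g', hg', ?_⟩
  rw [norm_eq, norm_eq]
  apply Summable.tsum_le_tsum _ (summable_norm g') (summable_norm f)
  intro k
  rw [norm_coord, hg']
  exact h1 k

theorem exists_translate (t : Gr) (f : E) : ∃ g : E, ι g = fun s => ι f (s - t) := by
  apply exists_elt
  apply Summable.of_norm_bounded_eventually_nat (summable_norm f)
  filter_upwards [eventually_gt_atTop (m t)] with k hk
  rw [Real.norm_of_nonneg (mul_nonneg (w_pos k).le (norm_nonneg _)), norm_coord]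
  apply mul_le_mul_of_nonneg_left _ (w_pos k).le
  apply v1_le _ _ k k (fun s => s - t) (sub_left_injective)
  intro s hs
  right
  refine ⟨?_, le_rfl⟩
  rw [mem_Sf] at hs ⊢
  rw [m_sub_of_ne _ _ (by omega), hs]
  omega

theorem invariant : Invariant (G := Gr) ι := by
  intro t f
  constructor
  · obtain ⟨g, hg⟩ := exists_translate (-t) f
    refine ⟨g, ?_⟩
    rw [hg]
    funext s
    rw [sub_neg_eq_add]
  · obtain ⟨g, hg⟩ := exists_translate t f
    refine ⟨g, ?_⟩
    rw [hg]
    funext s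
    rw [sub_eq_neg_add]

/-! ### Convolution -/

/-- translation -/
noncomputable def τ (t : Gr) : E →ₗ[ℂ] E where
  toFun f := (exists_translate t f).choose
  map_add' f g := by
    apply ι_injective
    have h1 := (exists_translate t (f + g)).choose_spec
    have h2 := (exists_translate t f).choose_spec
    have h3 := (exists_translate t g).choose_spec
    have h4 := map_add ι (exists_translate t f).choose (exists_translate t g).choose
    refine h1.trans (Eq.trans ?_ h4.symm)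
    refine Eq.trans ?_ (congrArg₂ (fun x y => x + y) h2 h3).symm
    rw [map_add]
    rfl
  map_smul' c f := by
    apply ι_injective
    have h1 := (exists_translate t (c • f)).choose_spec
    have h2 := (exists_translate t f).choose_spec
    have h4 := map_smul ι c (exists_translate t f).choose
    refine h1.trans (Eq.trans ?_ h4.symm)
    refine Eq.trans ?_ (congrArg (fun x => c • x) h2).symm
    rw [map_smul]
    rfl

theorem ι_τ (t : Gr) (f : E) : ι (τ t f) = fun s => ι f (s - t) := (exists_translate t f).choose_spec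

/-- convolution with a function on a shell -/
noncomputable def cv (N : E) (k : ℕ) (v : EuclideanSpace ℂ (Sh k)) : E := ∑ t : Sh k, v t • τ t.1 N

theorem ι_cv (N : E) (k : ℕ) (v : EuclideanSpace ℂ (Sh k)) (s : Gr) :
    ι (cv N k v) s = ∑ t : Sh k, v t * ι N (s - t.1) := by
  unfold cv
  rw [map_sum, Finset.sum_apply]
  apply sum_congr rfl
  intro t _
  rw [map_smul, Pi.smul_apply, ι_τ, smul_eq_mul]

theorem cv_add_left (N N' : E) (k : ℕ) (v : EuclideanSpace ℂ (Sh k)) :
    cv (N + N') k v = cv N k v + cv N' k v := by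
  unfold cv
  simp only [map_add, smul_add, sum_add_distrib]

theorem cv_smul_left (c : ℂ) (N : E) (k : ℕ) (v : EuclideanSpace ℂ (Sh k)) :
    cv (c • N) k v = c • cv N k v := by
  unfold cv
  simp only [map_smul, smul_sum, smul_comm c]

theorem cv_add_right (N : E) (k : ℕ) (v v' : EuclideanSpace ℂ (Sh k)) :
    cv N k (v + v') = cv N k v + cv N k v' := by
  unfold cv
  simp only [PiLp.add_apply, add_smul, sum_add_distrib]

theorem cv_smul_right (c : ℂ) (N : E) (k : ℕ) (v : EuclideanSpace ℂ (Sh k)) :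
    cv N k (c • v) = c • cv N k v := by
  unfold cv
  simp only [PiLp.smul_apply, smul_sum, smul_eq_mul, mul_smul]

theorem norm_v1_cv_le (N : E) (k : ℕ) (v : EuclideanSpace ℂ (Sh k)) (i : ℕ) (hi : i ≠ k) :
    ‖v1 (ι (cv N k v)) i‖ ≤ (∑ t : Sh k, ‖v t‖) * ‖v1 (ι N) (max i k)‖ := by
  have h1 : v1 (ι (cv N k v)) i = ∑ t : Sh k, v t • v1 (ι (τ t.1 N)) i := by
    ext s
    rw [v1_apply, ι_cv, WithLp.ofLp_sum, Finset.sum_apply]
    apply sum_congr rfl
    intro t _
    rw [PiLp.smul_apply, v1_apply, ι_τ, smul_eq_mul]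
  rw [h1, sum_mul]
  refine (norm_sum_le _ _).trans (sum_le_sum fun t _ => ?_)
  rw [norm_smul]
  apply mul_le_mul_of_nonneg_left _ (norm_nonneg _)
  rw [ι_τ]
  apply v1_le _ _ i (max i k) (fun s => s - t.1) sub_left_injective
  intro s hs
  right
  refine ⟨?_, le_rfl⟩
  have ht := (mem_Sf _ _).mp t.2
  rw [mem_Sf] at hs ⊢
  rw [m_sub_of_ne _ _ (by omega), hs, ht]

theorem l1_le (g : Gr → ℂ) (i : ℕ) : ∑ s ∈ Sf i, ‖g s‖ ≤ w i * ‖v1 g i‖ := by
  apply le_of_sq_le_sq _ (mul_nonneg (w_pos i).le (norm_nonneg _))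
  rw [mul_pow, norm_v1_sq]
  refine sq_sum_le_card_mul_sum_sq.trans ?_
  apply mul_le_mul_of_nonneg_right _ (sum_nonneg fun s _ => by positivity)
  have h1 := card_Sf_le i
  have h2 := w_ge_one i
  nlinarith

theorem l1_shell (k : ℕ) (v : EuclideanSpace ℂ (Sh k)) : ∑ t : Sh k, ‖v t‖ ≤ w k * ‖v‖ := by
  apply le_of_sq_le_sq _ (mul_nonneg (w_pos k).le (norm_nonneg _))
  rw [mul_pow, EuclideanSpace.norm_sq_eq]
  refine sq_sum_le_card_mul_sum_sq.trans ?_
  apply mul_le_mul_of_nonneg_right _ (sum_nonneg fun s _ => by positivity)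
  have h1 := card_Sf_le k
  have h2 := w_ge_one k
  rw [card_univ, Fintype.card_coe]
  nlinarith

theorem l1_Hk (N : E) (k : ℕ) : ∑ h ∈ Hk k, ‖ι N h‖ ≤ ‖N‖ := by
  have h1 : ∑ h ∈ Hk k, ‖ι N h‖ = ∑ i ∈ range (k + 1), ∑ h ∈ Sf i, ‖ι N h‖ := by
    rw [← sum_fiberwise_of_maps_to (t := range (k + 1)) (g := m)]
    · apply sum_congr rfl
      intro i hi
      apply sum_congr _ (fun _ _ => rfl)
      ext s
      rw [mem_filter, mem_Hk, mem_Sf]
      have := mem_range.mp hi
      omega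
    · intro s hs
      rw [mem_Hk] at hs
      rw [mem_range]
      omega
  rw [h1, norm_eq]
  refine le_trans (sum_le_sum fun i _ => ?_)
    ((summable_norm N).sum_le_tsum (range (k + 1)) (fun i _ => norm_nonneg _))
  rw [norm_coord]
  exact l1_le _ _

/-- extension by zero -/
noncomputable def ext0 (k : ℕ) (v : EuclideanSpace ℂ (Sh k)) (s : Gr) : ℂ :=
  if h : s ∈ Sf k then v ⟨s, h⟩ else 0

theorem v1_ext0 (k : ℕ) (v : EuclideanSpace ℂ (Sh k)) : v1 (ext0 k v) k = v := by
  ext s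
  rw [v1_apply]
  unfold ext0
  rw [dif_pos s.2]

theorem norm_v1_cv_self (N : E) (k : ℕ) (v : EuclideanSpace ℂ (Sh k)) :
    ‖v1 (ι (cv N k v)) k‖ ≤ ‖N‖ * ‖v‖ := by
  have h1 : v1 (ι (cv N k v)) k = ∑ h ∈ Hk k, ι N h • v1 (fun s => ext0 k v (s - h)) k := by
    ext s
    rw [v1_apply, ι_cv, WithLp.ofLp_sum, Finset.sum_apply]
    have h2 : ∑ t : Sh k, v t * ι N (s.1 - t.1) = ∑ t ∈ Hk k, ext0 k v t * ι N (s.1 - t) := by
      have h3 : Sf k ⊆ Hk k := filter_subset _ _
      rw [← sum_subset h3, ← sum_coe_sort (Sf k)]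
      · apply sum_congr rfl
        intro t _
        unfold ext0
        rw [dif_pos t.2]
      · intro t _ ht
        unfold ext0
        rw [dif_neg ht, zero_mul]
    rw [h2]
    have hs := (mem_Sf _ _).mp s.2
    apply sum_nbij' (fun t => s.1 - t) (fun t => s.1 - t)
    · intro t ht
      rw [mem_Hk] at ht ⊢
      exact (m_sub _ _).trans (max_le hs.le ht)
    · intro t ht
      rw [mem_Hk] at ht ⊢
      exact (m_sub _ _).trans (max_le hs.le ht)
    · intro t _
      exact sub_sub_cancel _ _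
    · intro t _
      exact sub_sub_cancel _ _
    · intro t _
      rw [PiLp.smul_apply, v1_apply, smul_eq_mul, sub_sub_cancel, mul_comm]
  rw [h1]
  refine (norm_sum_le _ _).trans ?_
  refine le_trans (sum_le_sum (g := fun h => ‖ι N h‖ * ‖v‖) fun h _ => ?_) ?_
  · rw [norm_smul]
    apply mul_le_mul_of_nonneg_left _ (norm_nonneg _)
    conv_rhs => rw [← v1_ext0 k v]
    apply v1_le _ _ k k (fun s => s - h) sub_left_injective
    intro s _
    by_cases h3 : s - h ∈ Sf k
    · exact Or.inr ⟨h3, le_rfl⟩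
    · left
      unfold ext0
      rw [dif_neg h3]
  · rw [← sum_mul]
    exact mul_le_mul_of_nonneg_right (l1_Hk N k) (norm_nonneg _)

theorem norm_cv_le (N : E) (k : ℕ) (v : EuclideanSpace ℂ (Sh k)) :
    ‖cv N k v‖ ≤ 3 * (w k * ‖v‖ * ‖N‖) := by
  have hV := l1_shell k v
  have hV0 : 0 ≤ ∑ t : Sh k, ‖v t‖ := sum_nonneg fun t _ => norm_nonneg _
  set V : ℝ := ∑ t : Sh k, ‖v t‖ with hVdef
  have hNk : ∀ i, ‖N i‖ ≤ ‖N‖ := fun i => lp.norm_apply_le_norm (by norm_num) N i
  rw [norm_eq]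
  apply Real.tsum_le_of_sum_range_le (fun i => norm_nonneg _)
  intro n
  have h1 : ∀ i, ‖(cv N k v) i‖ ≤ (if i ∈ range k then w i * (V * ‖v1 (ι N) k‖) else 0) +
      (if i = k then w k * (‖N‖ * ‖v‖) else 0) + V * ‖N i‖ := by
    intro i
    rw [norm_coord]
    rcases lt_trichotomy i k with hi | hi | hi
    · rw [if_pos (mem_range.mpr hi), if_neg hi.ne]
      have h2 := norm_v1_cv_le N k v i hi.ne
      rw [max_eq_right hi.le] at h2
      have h3 := mul_le_mul_of_nonneg_left h2 (w_pos i).le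
      have h4 : 0 ≤ V * ‖N i‖ := by positivity
      linarith
    · rw [if_neg (by rw [mem_range]; omega), if_pos hi]
      subst hi
      have h3 := mul_le_mul_of_nonneg_left (norm_v1_cv_self N i v) (w_pos i).le
      have h4 : 0 ≤ V * ‖N i‖ := by positivity
      linarith
    · rw [if_neg (by rw [mem_range]; omega), if_neg hi.ne']
      have h2 := norm_v1_cv_le N k v i hi.ne'
      rw [max_eq_left hi.le] at h2
      have h3 := mul_le_mul_of_nonneg_left h2 (w_pos i).le
      rw [norm_coord N i]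
      linarith
  refine (sum_le_sum fun i _ => h1 i).trans ?_
  rw [sum_add_distrib, sum_add_distrib, ← mul_sum, ← sum_filter]
  have h2 : ∑ i ∈ (range n).filter (fun i => i ∈ range k), w i * (V * ‖v1 (ι N) k‖) ≤
      w k * (V * ‖v1 (ι N) k‖) := by
    rw [← sum_mul]
    apply mul_le_mul_of_nonneg_right _ (by positivity)
    refine le_trans (sum_le_sum_of_subset_of_nonneg ?_ (fun i _ _ => (w_pos i).le)) (sum_w k)
    intro i hi
    exact (mem_filter.mp hi).2
  have h3 : w k * (V * ‖v1 (ι N) k‖) = V * ‖N k‖ := by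
    rw [norm_coord N k]
    ring
  have h4 : V * ‖N k‖ ≤ w k * ‖v‖ * ‖N‖ := by
    apply mul_le_mul hV (hNk k) (norm_nonneg _)
    exact mul_nonneg (w_pos k).le (norm_nonneg _)
  have h5 : ∑ i ∈ range n, (if i = k then w k * (‖N‖ * ‖v‖) else 0) ≤ w k * (‖N‖ * ‖v‖) := by
    rw [sum_ite_eq']
    split_ifs
    · exact le_rfl
    · have := (w_pos k).le
      positivity
  have h6 : ∑ i ∈ range n, ‖N i‖ ≤ ‖N‖ := by
    rw [norm_eq]
    exact (summable_norm N).sum_le_tsum _ (fun i _ => norm_nonneg _)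
  have h7 : V * ∑ i ∈ range n, ‖N i‖ ≤ w k * ‖v‖ * ‖N‖ := by
    apply mul_le_mul hV h6 (sum_nonneg fun i _ => norm_nonneg _)
    exact mul_nonneg (w_pos k).le (norm_nonneg _)
  have h8 : w k * (‖N‖ * ‖v‖) = w k * ‖v‖ * ‖N‖ := by ring
  linarith

theorem summable_A (N f : E) : Summable fun k => ((w k : ℝ) : ℂ)⁻¹ • cv N k (f k) := by
  apply Summable.of_norm_bounded (g := fun k => 3 * ‖N‖ * ‖f k‖) ((summable_norm f).mul_left _)
  intro k
  rw [norm_smul, norm_inv, Complex.norm_real, Real.norm_of_nonneg (w_pos k).le,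
    inv_mul_le_iff₀ (w_pos k)]
  refine (norm_cv_le N k (f k)).trans (le_of_eq ?_)
  ring

/-- convolution -/
noncomputable def Aop : E →ₗ[ℂ] E →ₗ[ℂ] E := LinearMap.mk₂ ℂ
  (fun N f => ∑' k, ((w k : ℝ) : ℂ)⁻¹ • cv N k (f k))
  (by
    intro N N' f
    beta_reduce
    rw [← (summable_A N f).tsum_add (summable_A N' f)]
    apply tsum_congr
    intro k
    rw [cv_add_left, smul_add])
  (by
    intro c N f
    beta_reduce
    rw [← (summable_A N f).tsum_const_smul c]
    apply tsum_congr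
    intro k
    rw [cv_smul_left, smul_comm])
  (by
    intro N f g
    beta_reduce
    rw [← (summable_A N f).tsum_add (summable_A N g)]
    apply tsum_congr
    intro k
    rw [lp.coeFn_add, Pi.add_apply, cv_add_right, smul_add])
  (by
    intro c N f
    beta_reduce
    rw [← (summable_A N f).tsum_const_smul c]
    apply tsum_congr
    intro k
    rw [lp.coeFn_smul, Pi.smul_apply, cv_smul_right, smul_comm])

theorem Aop_apply (N f : E) : Aop N f = ∑' k, ((w k : ℝ) : ℂ)⁻¹ • cv N k (f k) := rfl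

/-- evaluation -/
noncomputable def ev (s : Gr) : E →L[ℂ] ℂ :=
  LinearMap.mkContinuous ((LinearMap.proj s).comp ι) 1 (by
    intro f
    show ‖ι f s‖ ≤ 1 * ‖f‖
    rw [ι_apply, norm_mul, norm_inv, Complex.norm_real, Real.norm_of_nonneg (w_pos _).le]
    have h1 : (w (m s))⁻¹ ≤ 1 := inv_le_one_of_one_le₀ (w_ge_one _)
    have h2 : ‖f (m s) ⟨s, mem_Sf_self s⟩‖ ≤ ‖f (m s)‖ := PiLp.norm_apply_le _ _
    have h3 : ‖f (m s)‖ ≤ ‖f‖ := lp.norm_apply_le_norm (by norm_num) f (m s)
    exact mul_le_mul h1 (h2.trans h3) (norm_nonneg _) zero_le_one)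

theorem ev_apply (s : Gr) (f : E) : ev s f = ι f s := rfl

theorem nonneg_iff (f : E) : IsNonneg ι f ↔ ∀ s, 0 ≤ (ι f s).re ∧ 0 = (ι f s).im := by
  unfold IsNonneg
  constructor
  · exact fun h s => ⟨(h s).1, (h s).2.symm⟩
  · exact fun h s => ⟨(h s).1, (h s).2.symm⟩

theorem isNonneg_tsum (g : ℕ → E) (hg : Summable g) (h : ∀ k, IsNonneg ι (g k)) :
    IsNonneg ι (∑' k, g k) := by
  intro s
  have h1 : ι (∑' k, g k) s = ∑' k, ι (g k) s := by
    rw [← ev_apply, (ev s).map_tsum hg]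
    rfl
  have h2 : Summable fun k => ι (g k) s := hg.mapL (ev s)
  rw [h1, Complex.re_tsum h2, Complex.im_tsum h2]
  constructor
  · exact tsum_nonneg fun k => (h k s).1
  · rw [tsum_congr (fun k => (h k s).2), tsum_zero]

theorem nn_mul {a b : ℂ} (ha : 0 ≤ a.re ∧ a.im = 0) (hb : 0 ≤ b.re ∧ b.im = 0) :
    0 ≤ (a * b).re ∧ (a * b).im = 0 := by
  rw [Complex.mul_re, Complex.mul_im, ha.2, hb.2]
  simp only [mul_zero, zero_mul, sub_zero, add_zero, and_true]
  exact mul_nonneg ha.1 hb.1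

theorem nn_sum {α : Type*} (S : Finset α) (a : α → ℂ) (ha : ∀ i ∈ S, 0 ≤ (a i).re ∧ (a i).im = 0) :
    0 ≤ (∑ i ∈ S, a i).re ∧ (∑ i ∈ S, a i).im = 0 := by
  rw [Complex.re_sum, Complex.im_sum]
  exact ⟨sum_nonneg fun i hi => (ha i hi).1, sum_eq_zero fun i hi => (ha i hi).2⟩

theorem positive_Aop (N : E) (hN : IsNonneg ι N) : PositiveOp (G := Gr) ι (Aop N) := by
  intro f hf
  rw [Aop_apply]
  apply isNonneg_tsum _ (summable_A N f)
  intro k s
  rw [map_smul, Pi.smul_apply, smul_eq_mul, ι_cv]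
  apply nn_mul
  · rw [← Complex.ofReal_inv]
    exact ⟨by rw [Complex.ofReal_re]; exact inv_nonneg.mpr (w_pos k).le, Complex.ofReal_im _⟩
  · apply nn_sum
    intro t _
    apply nn_mul _ (hN _)
    rw [coord_eq f k, PiLp.smul_apply, v1_apply, smul_eq_mul]
    apply nn_mul _ (hf _)
    exact ⟨by rw [Complex.ofReal_re]; exact (w_pos k).le, Complex.ofReal_im _⟩

/-- the unit mass at a point -/
theorem exists_delta (t : Gr) : ∃ f : E, ι f = Pi.single t 1 := by
  apply exists_elt
  apply summable_of_ne_finset_zero (s := {m t})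
  intro k hk
  rw [mem_singleton] at hk
  have : v1 (Pi.single t 1) k = 0 := by
    ext s
    rw [v1_apply, Pi.single_eq_of_ne]
    · rfl
    · rintro rfl
      exact hk ((mem_Sf _ _).mp s.2).symm
  rw [this, norm_zero, mul_zero]

theorem single_eq (δ : E) (hδ : ι δ = Pi.single 0 1) (k : ℕ) (v : EuclideanSpace ℂ (Sh k)) :
    (lp.single 1 k v : E) = ((w k : ℝ) : ℂ)⁻¹ • cv δ k v := by
  apply ι_injective
  funext s
  rw [map_smul, Pi.smul_apply, smul_eq_mul, ι_cv, ι_apply, hδ, lp.single_apply]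
  by_cases h : m s = k
  · subst h
    rw [Pi.single_eq_same]
    congr 1
    rw [sum_eq_single ⟨s, mem_Sf_self s⟩]
    · simp
    · intro t _ ht
      rw [Pi.single_eq_of_ne, mul_zero]
      intro h
      apply ht
      apply Subtype.ext
      exact (sub_eq_zero.mp h).symm
    · intro h
      exact absurd (mem_univ _) h
  · rw [Pi.single_eq_of_ne h, sum_eq_zero]
    · simp
    · intro t _
      rw [Pi.single_eq_of_ne, mul_zero]
      intro h'
      apply h
      rw [sub_eq_zero.mp h']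
      exact (mem_Sf _ _).mp t.2

theorem eq_Aop (T : E →L[ℂ] E) (hT : CommutesRight (G := Gr) ι T.toLinearMap) (δ : E)
    (hδ : ι δ = Pi.single 0 1) : T.toLinearMap = Aop (T δ) := by
  apply LinearMap.ext
  intro f
  have h1 : HasSum (fun k => (lp.single 1 k (f k) : E)) f := lp.hasSum_single (p := 1) (by norm_num) f
  have h2 := h1.mapL T
  rw [Aop_apply]
  show T f = _
  rw [← h2.tsum_eq]
  apply tsum_congr
  intro k
  rw [single_eq δ hδ, map_smul]
  congr 1
  unfold cv
  rw [map_sum]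
  apply sum_congr rfl
  intro t _
  rw [map_smul]
  congr 1
  apply ι_injective
  have h3 := hT (-t.1) δ (τ t.1 δ) (by
    rw [ι_τ]
    funext s
    rw [sub_eq_add_neg])
  rw [ι_τ]
  refine h3.trans ?_
  funext s
  rw [sub_eq_add_neg]
  rfl

theorem exists_parts (N : E) : ∃ N1 N2 N3 N4 : E, IsNonneg ι N1 ∧ IsNonneg ι N2 ∧ IsNonneg ι N3 ∧
    IsNonneg ι N4 ∧ N = N1 - N2 + Complex.I • N3 - Complex.I • N4 := by
  have h : ∀ x : ℂ → ℝ, (∀ z, 0 ≤ x z ∧ x z ≤ ‖z‖) → ∃ N' : E, ι N' = fun s => ((x (ι N s) : ℝ) : ℂ) := by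
    intro x hx
    obtain ⟨N', h1, _⟩ := bfs.solid N (fun s => ((x (ι N s) : ℝ) : ℂ)) (by
      intro s
      rw [Complex.norm_real, Real.norm_of_nonneg (hx _).1]
      exact (hx _).2)
    exact ⟨N', h1⟩
  obtain ⟨N1, h1⟩ := h (fun z => max z.re 0) (fun z => ⟨le_max_right _ _,
    max_le ((le_abs_self _).trans (Complex.abs_re_le_norm z)) (norm_nonneg z)⟩)
  obtain ⟨N2, h2⟩ := h (fun z => max (-z.re) 0) (fun z => ⟨le_max_right _ _,
    max_le ((neg_le_abs _).trans (Complex.abs_re_le_norm z)) (norm_nonneg z)⟩)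
  obtain ⟨N3, h3⟩ := h (fun z => max z.im 0) (fun z => ⟨le_max_right _ _,
    max_le ((le_abs_self _).trans (Complex.abs_im_le_norm z)) (norm_nonneg z)⟩)
  obtain ⟨N4, h4⟩ := h (fun z => max (-z.im) 0) (fun z => ⟨le_max_right _ _,
    max_le ((neg_le_abs _).trans (Complex.abs_im_le_norm z)) (norm_nonneg z)⟩)
  refine ⟨N1, N2, N3, N4, ?_, ?_, ?_, ?_, ?_⟩
  · intro s
    rw [h1]
    exact ⟨by rw [Complex.ofReal_re]; exact le_max_right _ _, Complex.ofReal_im _⟩
  · intro s
    rw [h2]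
    exact ⟨by rw [Complex.ofReal_re]; exact le_max_right _ _, Complex.ofReal_im _⟩
  · intro s
    rw [h3]
    exact ⟨by rw [Complex.ofReal_re]; exact le_max_right _ _, Complex.ofReal_im _⟩
  · intro s
    rw [h4]
    exact ⟨by rw [Complex.ofReal_re]; exact le_max_right _ _, Complex.ofReal_im _⟩
  · apply ι_injective
    funext s
    rw [map_sub, map_add, map_sub, map_smul, map_smul]
    simp only [Pi.sub_apply, Pi.add_apply, Pi.smul_apply, smul_eq_mul, h1, h2, h3, h4]
    apply Complex.ext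
    · simp only [Complex.sub_re, Complex.add_re, Complex.mul_re, Complex.ofReal_re, Complex.ofReal_im,
        Complex.I_re, Complex.I_im]
      rcases le_total 0 (ι N s).re with h | h
      · rw [max_eq_left h, max_eq_right (by linarith)]
        ring
      · rw [max_eq_right h, max_eq_left (by linarith)]
        ring
    · simp only [Complex.sub_im, Complex.add_im, Complex.mul_im, Complex.ofReal_re, Complex.ofReal_im,
        Complex.I_re, Complex.I_im]
      rcases le_total 0 (ι N s).im with h | h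
      · rw [max_eq_left h, max_eq_right (by linarith)]
        ring
      · rw [max_eq_right h, max_eq_left (by linarith)]
        ring

theorem regular_of_commutes (T : E →L[ℂ] E) (hT : CommutesRight (G := Gr) ι T.toLinearMap) :
    RegularOp (G := Gr) ι T.toLinearMap := by
  obtain ⟨δ, hδ⟩ := exists_delta 0
  obtain ⟨N1, N2, N3, N4, h1, h2, h3, h4, hN⟩ := exists_parts (T δ)
  refine ⟨4, ![1, -1, Complex.I, -Complex.I], ![Aop N1, Aop N2, Aop N3, Aop N4], ?_, ?_⟩
  · intro i
    fin_cases i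
    · exact positive_Aop N1 h1
    · exact positive_Aop N2 h2
    · exact positive_Aop N3 h3
    · exact positive_Aop N4 h4
  · rw [eq_Aop T hT δ hδ, hN, map_sub, map_add, map_sub, map_smul, map_smul]
    rw [Fin.sum_univ_four]
    simp only [Matrix.cons_val_zero, Matrix.cons_val_one, Matrix.cons_val]
    rw [one_smul, neg_smul, one_smul, neg_smul]
    abel

/-! ### A non-regular operator -/

theorem parseval (p : ℕ) [NeZero p] (F : ZMod p → ℂ) :
    ∑ s : ZMod p, ‖∑ a, F a * ZMod.stdAddChar (a * s)‖ ^ 2 = p * ∑ a, ‖F a‖ ^ 2 := by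
  have h : ((∑ s : ZMod p, ‖∑ a, F a * ZMod.stdAddChar (a * s)‖ ^ 2 : ℝ) : ℂ) =
      ((p * ∑ a, ‖F a‖ ^ 2 : ℝ) : ℂ) := by
    push_cast
    have h1 : ∀ z : ℂ, ((‖z‖ : ℂ)) ^ 2 = z * (starRingEnd ℂ) z := fun z => (Complex.mul_conj' z).symm
    simp only [h1, map_sum, map_mul]
    have h2 : ∀ s : ZMod p, (∑ a, F a * ZMod.stdAddChar (a * s)) *
        (∑ b, (starRingEnd ℂ) (F b) * (starRingEnd ℂ) (ZMod.stdAddChar (b * s))) =
        ∑ a, ∑ b, F a * (starRingEnd ℂ) (F b) * ZMod.stdAddChar (s * (a - b)) := by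
      intro s
      rw [sum_mul_sum]
      apply sum_congr rfl
      intro a _
      apply sum_congr rfl
      intro b _
      have h3 : (starRingEnd ℂ) (ZMod.stdAddChar (b * s)) = ZMod.stdAddChar (-(b * s)) :=
        (AddChar.map_neg_eq_conj _ _).symm
      have h4 : s * (a - b) = a * s + -(b * s) := by ring
      rw [h3, h4, AddChar.map_add_eq_mul]
      ring
    rw [sum_congr rfl (fun s _ => h2 s), sum_comm, mul_sum]
    apply sum_congr rfl
    intro a _
    rw [sum_comm]
    rw [sum_eq_single a]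
    · simp only [sub_self, mul_zero, AddChar.map_zero_eq_one, mul_one, sum_const, card_univ,
        ZMod.card, nsmul_eq_mul]
    · intro b _ hb
      rw [← mul_sum, AddChar.sum_mulShift _ (ZMod.isPrimitive_stdAddChar p), if_neg, Nat.cast_zero,
        mul_zero]
      intro h
      exact hb (sub_eq_zero.mp h).symm
    · intro h
      exact absurd (mem_univ a) h
  exact_mod_cast h

/-- a contraction of `ℓ²(shell)` with flat matrix -/
theorem exists_flat (k : ℕ) : ∃ U : EuclideanSpace ℂ (Sh k) →ₗ[ℂ] EuclideanSpace ℂ (Sh k),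
    (∀ v, ‖U v‖ ≤ ‖v‖) ∧ ∃ M : Sh k → Sh k → ℂ, (∀ v s, U v s = ∑ t, M s t * v t) ∧
      ∀ s t, ‖M s t‖ = (√((Sf k).card))⁻¹ := by
  have hpos : 0 < (Sf k).card := card_pos.mpr (Sf_nonempty k)
  have : NeZero (Sf k).card := ⟨hpos.ne'⟩
  have hR : (0 : ℝ) < (Sf k).card := by exact_mod_cast hpos
  have hS : 0 < √((Sf k).card : ℝ) := Real.sqrt_pos.mpr hR
  obtain ⟨e⟩ : Nonempty (Sh k ≃ ZMod (Sf k).card) := by
    apply Fintype.card_eq.mp
    rw [Fintype.card_coe, ZMod.card]
  refine ⟨{ toFun := fun v => WithLp.toLp 2 (fun s => ((√((Sf k).card) : ℝ) : ℂ)⁻¹ *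
      ∑ t, v t * ZMod.stdAddChar (e t * e s))
            map_add' := ?_
            map_smul' := ?_ }, ?_, fun s t => ((√((Sf k).card) : ℝ) : ℂ)⁻¹ *
      ZMod.stdAddChar (e t * e s), ?_, ?_⟩
  · intro v v'
    ext s
    simp only [PiLp.add_apply, add_mul, sum_add_distrib, mul_add]
  · intro c v
    ext s
    simp only [PiLp.smul_apply, smul_eq_mul, RingHom.id_apply, mul_assoc, ← mul_sum]
    ring
  · intro v
    apply le_of_sq_le_sq _ (norm_nonneg _)
    rw [EuclideanSpace.norm_sq_eq, EuclideanSpace.norm_sq_eq]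
    have h1 := parseval (Sf k).card (fun a => v (e.symm a))
    have h2 : ∑ s : Sh k, ‖∑ t, v t * ZMod.stdAddChar (e t * e s)‖ ^ 2 =
        (Sf k).card * ∑ t, ‖v t‖ ^ 2 := by
      rw [← e.sum_comp] at h1
      rw [← e.sum_comp (fun a => ‖v (e.symm a)‖ ^ 2)] at h1
      simp only [Equiv.symm_apply_apply] at h1
      rw [← h1]
      apply sum_congr rfl
      intro s _
      rw [← e.sum_comp]
      simp only [Equiv.symm_apply_apply]
    apply le_of_eq
    show ∑ s : Sh k, ‖((√((Sf k).card) : ℝ) : ℂ)⁻¹ * ∑ t, v t * ZMod.stdAddChar (e t * e s)‖ ^ 2 = _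
    simp only [norm_mul, mul_pow, norm_inv, Complex.norm_real, Real.norm_of_nonneg hS.le]
    rw [← mul_sum, h2, inv_pow, Real.sq_sqrt hR.le, inv_mul_cancel_left₀ hR.ne']
  · intro v s
    show ((√((Sf k).card) : ℝ) : ℂ)⁻¹ * ∑ t, v t * ZMod.stdAddChar (e t * e s) = _
    rw [mul_sum]
    apply sum_congr rfl
    intro t _
    ring
  · intro s t
    rw [norm_mul, norm_inv, Complex.norm_real, Real.norm_of_nonneg hS.le, AddChar.norm_apply, mul_one]

/-- the non-regular operator -/
theorem exists_T : ∃ T : E →L[ℂ] E, ∀ (t : Gr) (δ : E), ι δ = Pi.single t 1 → ∀ s, m s = m t →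
    ‖ι (T δ) s‖ = (√((Sf (m t)).card))⁻¹ := by
  choose U hU M hUM hM using exists_flat
  have hmem : ∀ f : E, Memℓp (fun k => U k (f k)) 1 := by
    intro f
    apply memℓp_gen
    simp only [ENNReal.toReal_one, Real.rpow_one]
    exact Summable.of_nonneg_of_le (fun k => norm_nonneg _) (fun k => hU k (f k)) (summable_norm f)
  let T0 : E →ₗ[ℂ] E :=
    { toFun := fun f => ⟨fun k => U k (f k), hmem f⟩
      map_add' := by
        intro f g
        apply lp.ext
        funext k
        show U k ((f + g) k) = U k (f k) + U k (g k)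
        rw [lp.coeFn_add, Pi.add_apply, map_add]
      map_smul' := by
        intro c f
        apply lp.ext
        funext k
        show U k ((c • f) k) = c • U k (f k)
        rw [lp.coeFn_smul, Pi.smul_apply, map_smul] }
  have hT0 : ∀ f k, (T0 f) k = U k (f k) := fun f k => rfl
  refine ⟨T0.mkContinuous 1 ?_, ?_⟩
  · intro f
    rw [one_mul, norm_eq, norm_eq]
    apply Summable.tsum_le_tsum _ (summable_norm _) (summable_norm f)
    intro k
    rw [hT0]
    exact hU k (f k)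
  · intro t δ hδ s hs
    show ‖ι (T0 δ) s‖ = _
    rw [ι_apply, hT0, hUM]
    have h1 : ∀ r : Sh (m s), δ (m s) r = ((w (m s) : ℝ) : ℂ) * (if r.1 = t then 1 else 0) := by
      intro r
      rw [coord_eq δ, PiLp.smul_apply, v1_apply, hδ, smul_eq_mul, Pi.single_apply]
    simp only [h1]
    rw [sum_eq_single ⟨t, (mem_Sf _ _).mpr hs.symm⟩]
    · rw [if_pos rfl, mul_one, norm_mul, norm_mul, norm_inv, hM, Complex.norm_real,
        Real.norm_of_nonneg (w_pos _).le, hs]
      field_simp [(w_pos (m t)).ne']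
    · intro r _ hr
      rw [if_neg, mul_zero, mul_zero]
      intro h
      exact hr (Subtype.ext h)
    · intro h
      exact absurd (mem_univ _) h

theorem nn_iff_norm {z : ℂ} (h : 0 ≤ z.re ∧ z.im = 0) : ‖z‖ = z.re := by
  have : z = ((z.re : ℝ) : ℂ) := Complex.ext rfl (by rw [Complex.ofReal_im]; exact h.2)
  rw [this, Complex.norm_real, Complex.ofReal_re, Real.norm_of_nonneg h.1]

theorem not_regular : ∃ T : E →L[ℂ] E, ¬ RegularOp (G := Gr) ι T.toLinearMap := by
  obtain ⟨T, hT⟩ := exists_T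
  refine ⟨T, ?_⟩
  rintro ⟨n, c, A, hA, hTA⟩
  choose δ hδ using exists_delta
  -- the explicit element
  have hr : ∀ k, (0 : ℝ) < (Sf k).card := fun k => by
    exact_mod_cast card_pos.mpr (Sf_nonempty k)
  have hS : ∀ k, 0 < √((Sf k).card : ℝ) := fun k => Real.sqrt_pos.mpr (hr k)
  let a : ℕ → ℝ := fun k => (w k)⁻¹ * (√((Sf k).card))⁻¹ * (3 / 4) ^ k
  have ha : ∀ k, 0 < a k := by
    intro k
    have h1 := w_pos k
    have h2 := hS k
    show 0 < (w k)⁻¹ * (√((Sf k).card))⁻¹ * (3 / 4) ^ k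
    positivity
  obtain ⟨F, hF⟩ := exists_elt (fun s => ((a (m s) : ℝ) : ℂ)) (by
    refine (summable_geometric_of_lt_one (by norm_num) (by norm_num : (3 / 4 : ℝ) < 1)).congr ?_
    intro k
    have h1 : ‖v1 (fun s => ((a (m s) : ℝ) : ℂ)) k‖ = a k * √((Sf k).card) := by
      rw [← Real.sqrt_sq (norm_nonneg _), norm_v1_sq]
      have h2 : ∑ s ∈ Sf k, ‖((a (m s) : ℝ) : ℂ)‖ ^ 2 = (a k) ^ 2 * (Sf k).card := by
        rw [sum_congr rfl (g := fun _ => (a k) ^ 2)]
        · rw [sum_const, nsmul_eq_mul, mul_comm]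
        · intro s hs
          rw [(mem_Sf _ _).mp hs, Complex.norm_real, Real.norm_of_nonneg (ha k).le]
      rw [h2, Real.sqrt_mul (sq_nonneg _), Real.sqrt_sq (ha k).le]
    rw [h1]
    show _ = w k * ((w k)⁻¹ * (√((Sf k).card))⁻¹ * (3 / 4) ^ k * √((Sf k).card))
    have h2 := (w_pos k).ne'
    have h3 := (hS k).ne'
    field_simp)
  set B : E →ₗ[ℂ] E := ∑ i, (((‖c i‖ : ℝ) : ℂ)) • A i with hB
  have hFnn : IsNonneg ι F := by
    intro s
    rw [hF]
    exact ⟨by rw [Complex.ofReal_re]; exact (ha _).le, Complex.ofReal_im _⟩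
  have hδnn : ∀ t, IsNonneg ι (δ t) := by
    intro t s
    rw [hδ, Pi.single_apply]
    split_ifs <;> simp
  have hBpos : PositiveOp (G := Gr) ι B := by
    intro f hf s
    rw [hB, LinearMap.sum_apply, map_sum, Finset.sum_apply]
    apply nn_sum
    intro i _
    rw [LinearMap.smul_apply, map_smul, Pi.smul_apply, smul_eq_mul]
    apply nn_mul _ (hA i f hf s)
    exact ⟨by rw [Complex.ofReal_re]; exact norm_nonneg _, Complex.ofReal_im _⟩
  have hdom : ∀ t s, ‖ι (T (δ t)) s‖ ≤ (ι (B (δ t)) s).re := by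
    intro t s
    have h1 : T (δ t) = T.toLinearMap (δ t) := rfl
    rw [h1, hTA, hB, LinearMap.sum_apply, LinearMap.sum_apply, map_sum, map_sum, Finset.sum_apply,
      Finset.sum_apply, Complex.re_sum]
    refine (norm_sum_le _ _).trans (sum_le_sum fun i _ => ?_)
    rw [LinearMap.smul_apply, LinearMap.smul_apply, map_smul, map_smul, Pi.smul_apply, Pi.smul_apply,
      smul_eq_mul, smul_eq_mul, norm_mul, Complex.re_ofReal_mul, nn_iff_norm (hA i _ (hδnn t) s)]
  have hlow : ∀ k, ∀ s ∈ Sf k, a k * √((Sf k).card) ≤ ‖ι (B F) s‖ := by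
    intro k s hs
    have h1 : IsNonneg ι (F - ((a k : ℝ) : ℂ) • ∑ t ∈ Sf k, δ t) := by
      intro r
      have h2 : ι (F - ((a k : ℝ) : ℂ) • ∑ t ∈ Sf k, δ t) r =
          ((a (m r) - (if r ∈ Sf k then a k else 0) : ℝ) : ℂ) := by
        rw [map_sub, map_smul, map_sum, hF, Pi.sub_apply, Pi.smul_apply, Finset.sum_apply]
        simp only [hδ, Pi.single_apply, sum_ite_eq, smul_eq_mul]
        split_ifs <;> push_cast <;> simp
      rw [h2, Complex.ofReal_re]
      refine ⟨?_, Complex.ofReal_im _⟩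
      by_cases h3 : r ∈ Sf k
      · rw [if_pos h3, (mem_Sf _ _).mp h3, sub_self]
      · rw [if_neg h3, sub_zero]
        exact (ha _).le
    have h4 := (hBpos _ h1 s).1
    rw [map_sub, map_smul, map_sum, map_sub, map_smul, map_sum, Pi.sub_apply, Pi.smul_apply,
      Finset.sum_apply, Complex.sub_re, smul_eq_mul, Complex.re_ofReal_mul, Complex.re_sum] at h4
    have h5 : (Sf k).card * (√((Sf k).card))⁻¹ ≤ ∑ t ∈ Sf k, (ι (B (δ t)) s).re := by
      rw [← nsmul_eq_mul, ← sum_const]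
      apply sum_le_sum
      intro t ht
      have h6 := hdom t s
      rw [hT t (δ t) (hδ t) s (by rw [(mem_Sf _ _).mp hs, (mem_Sf _ _).mp ht])] at h6
      rwa [(mem_Sf _ _).mp ht] at h6
    have h7 : ((Sf k).card : ℝ) * (√((Sf k).card))⁻¹ = √((Sf k).card) := by
      rw [← div_eq_mul_inv, Real.div_sqrt]
    rw [h7] at h5
    have h8 := mul_le_mul_of_nonneg_left h5 (ha k).le
    have h9 : (ι (B F) s).re ≤ ‖ι (B F) s‖ := Complex.re_le_norm _
    linarith
  have hbig : ∀ k, (9 / 8 : ℝ) ^ k ≤ ‖B F‖ ^ 2 * 2 := by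
    intro k
    have h1 : ‖(B F) (k + 1)‖ ≤ ‖B F‖ := lp.norm_apply_le_norm (by norm_num) _ _
    have h2 : (w (k + 1) * (a (k + 1) * (Sf (k + 1)).card)) ^ 2 ≤ ‖(B F) (k + 1)‖ ^ 2 := by
      rw [norm_coord, mul_pow, mul_pow (w (k + 1)) ‖_‖, norm_v1_sq]
      apply mul_le_mul_of_nonneg_left _ (by positivity)
      have h3 : ∑ s ∈ Sf (k + 1), (a (k + 1) * √((Sf (k + 1)).card)) ^ 2 ≤
          ∑ s ∈ Sf (k + 1), ‖ι (B F) s‖ ^ 2 := by
        apply sum_le_sum
        intro s hs
        exact pow_le_pow_left₀ (mul_nonneg (ha _).le (hS _).le) (hlow (k + 1) s hs) 2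
      refine le_trans (le_of_eq ?_) h3
      rw [sum_const, nsmul_eq_mul, mul_pow (a (k + 1)) (√_), mul_pow (a (k + 1)),
        Real.sq_sqrt (hr _).le]
      ring
    have h4 : w (k + 1) * (a (k + 1) * (Sf (k + 1)).card) = √((Sf (k + 1)).card) * (3 / 4) ^ (k + 1) := by
      show w (k + 1) * ((w (k + 1))⁻¹ * (√((Sf (k + 1)).card))⁻¹ * (3 / 4) ^ (k + 1) *
        (Sf (k + 1)).card) = _
      have h5 := (w_pos (k + 1)).ne'
      have h7 : ((Sf (k + 1)).card : ℝ) * (√((Sf (k + 1)).card))⁻¹ = √((Sf (k + 1)).card) := by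
        rw [← div_eq_mul_inv, Real.div_sqrt]
      calc w (k + 1) * ((w (k + 1))⁻¹ * (√((Sf (k + 1)).card))⁻¹ * (3 / 4) ^ (k + 1) *
        (Sf (k + 1)).card) = (w (k + 1) * (w (k + 1))⁻¹) * (((Sf (k + 1)).card : ℝ) *
          (√((Sf (k + 1)).card))⁻¹) * (3 / 4) ^ (k + 1) := by ring
        _ = _ := by rw [h7, mul_inv_cancel₀ h5, one_mul]
    rw [h4, mul_pow, Real.sq_sqrt (hr _).le] at h2
    have h6 : (2 : ℝ) ^ k ≤ (Sf (k + 1)).card := by exact_mod_cast card_Sf_ge k
    have h8 : (2 : ℝ) ^ k * ((3 / 4 : ℝ) ^ (k + 1)) ^ 2 ≤ ‖B F‖ ^ 2 := by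
      refine le_trans (mul_le_mul_of_nonneg_right h6 (by positivity)) (h2.trans ?_)
      exact pow_le_pow_left₀ (norm_nonneg _) h1 2
    have h9 : (2 : ℝ) ^ k * ((3 / 4 : ℝ) ^ (k + 1)) ^ 2 = (9 / 8) ^ k * (9 / 16) := by
      rw [← pow_mul, mul_comm (k + 1) 2, pow_mul, pow_succ, ← mul_assoc, ← mul_pow]
      norm_num
    rw [h9] at h8
    have h10 : (0 : ℝ) ≤ (9 / 8) ^ k := by positivity
    linarith
  obtain ⟨k, hk⟩ := pow_unbounded_of_one_lt (‖B F‖ ^ 2 * 2) (by norm_num : (1 : ℝ) < 9 / 8)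
  exact absurd (hbig k) (not_le.mpr hk)

end Space

/-- `G` (as a discrete group) and the space `E` of functions on `G` form a counterexample -/
def Counterexample {G E : Type} [AddGroup G] [NormedAddCommGroup E] [NormedSpace ℂ E]
    (ι : E →ₗ[ℂ] (G → ℂ)) : Prop :=
  Amenable G ∧ IsBFS ι ∧ Invariant ι ∧
    (∃ T : E →L[ℂ] E, ¬ RegularOp ι T.toLinearMap) ∧
    ∀ T : E →L[ℂ] E, CommutesRight ι T.toLinearMap → RegularOp ι T.toLinearMap

/-- There are an amenable (discrete) group `G` and a Banach function space `E` on `G`, invariant under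
left and right translations, such that some bounded operator on `E` is not regular, while every
bounded operator on `E` commuting with all right translations is regular. -/
theorem result : ∃ (G : Type) (_ : AddGroup G) (E : Type) (_ : NormedAddCommGroup E)
    (_ : NormedSpace ℂ E) (ι : E →ₗ[ℂ] (G → ℂ)), Counterexample ι :=
  ⟨Gr, inferInstance, E, inferInstance, inferInstance, ι, amenable, bfs, invariant, not_regular,
    regular_of_commutes⟩

end Pool.Agent.Results.MP_3f33d0_an.InvariantRegular
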